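import Pool.Agent.W763.PB.Stm

/-!
# Density of trigonometric polynomials in `L²(μ)` on the circle (helper377)
-/

set_option autoImplicit false

open MeasureTheory Filter Topology
open scoped BoundedContinuousFunction ENNReal

namespace Pool.Agent.W377.PB

open Pool.Agent.W763.PB

noncomputable section

theorem trig_dense (f : ℂ → ℂ) (hf : Continuous f) (δ : ℝ) (hδ : 0 < δ) :
    ∃ (d : ℕ) (a : ℕ → ℂ), ∀ z : ℂ, ‖z‖ = 1 →
      ‖(z ^ d)⁻¹ * (∑ j ∈ Finset.range (2 * d + 1), a j * z ^ j) - f z‖ < δ := by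
  have : Fact ((0 : ℝ) < 1) := ⟨one_pos⟩
  let g : C(AddCircle (1 : ℝ), ℂ) := ⟨fun t => f (AddCircle.toCircle t : ℂ),
    hf.comp (continuous_subtype_val.comp AddCircle.continuous_toCircle)⟩
  have h1 : g ∈ (Submodule.span ℂ (Set.range (@fourier (1 : ℝ)))).topologicalClosure := by
    rw [span_fourier_closure_eq_top]; trivial
  rw [← SetLike.mem_coe, Submodule.topologicalClosure_coe, Metric.mem_closure_iff] at h1
  obtain ⟨P, hP, hd⟩ := h1 δ hδ
  rw [SetLike.mem_coe, Finsupp.mem_span_range_iff_exists_finsupp] at hP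
  obtain ⟨c, rfl⟩ := hP
  set d : ℕ := c.support.sup Int.natAbs with hdd
  refine ⟨d, fun j => c ((j : ℤ) - d), ?_⟩
  intro z hz
  have hz0 : z ≠ 0 := by
    intro h; rw [h, norm_zero] at hz; exact zero_ne_one hz
  obtain ⟨t, ht⟩ : ∃ t : AddCircle (1 : ℝ), (AddCircle.toCircle t : ℂ) = z := by
    have hh : z ∈ Submonoid.unitSphere ℂ := mem_sphere_zero_iff_norm.2 hz
    obtain ⟨w, hw⟩ : ∃ w : Circle, (w : ℂ) = z := ⟨⟨z, hh⟩, rfl⟩
    refine ⟨(AddCircle.homeomorphCircle (T := (1 : ℝ)) one_ne_zero).symm w, ?_⟩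
    rw [← AddCircle.homeomorphCircle_apply (T := (1 : ℝ)) one_ne_zero,
      Homeomorph.apply_symm_apply, hw]
  have e1 : (c.sum fun i a => a • (fourier i : C(AddCircle (1 : ℝ), ℂ))) t =
      ∑ i ∈ c.support, c i * z ^ i := by
    rw [Finsupp.sum, ContinuousMap.sum_apply]
    apply Finset.sum_congr rfl
    intro i _
    rw [ContinuousMap.smul_apply, smul_eq_mul, fourier_apply, AddCircle.toCircle_zsmul,
      Circle.coe_zpow, ht]
  have e2 : ∑ i ∈ c.support, c i * z ^ i = ∑ i ∈ Finset.Icc (-(d : ℤ)) d, c i * z ^ i := by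
    apply Finset.sum_subset
    · intro i hi
      have : i.natAbs ≤ d := Finset.le_sup (f := Int.natAbs) hi
      rw [Finset.mem_Icc]
      omega
    · intro i _ hi
      rw [Finsupp.notMem_support_iff.1 hi, zero_mul]
  have e3 : ∑ i ∈ Finset.Icc (-(d : ℤ)) d, c i * z ^ i =
      (z ^ d)⁻¹ * (∑ j ∈ Finset.range (2 * d + 1), c ((j : ℤ) - d) * z ^ j) := by
    rw [Finset.mul_sum]
    refine Finset.sum_nbij' (fun i : ℤ => (i + d).toNat) (fun j : ℕ => (j : ℤ) - d) ?_ ?_ ?_ ?_ ?_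
    · intro i hi
      rw [Finset.mem_Icc] at hi
      rw [Finset.mem_range]
      omega
    · intro j hj
      rw [Finset.mem_range] at hj
      rw [Finset.mem_Icc]
      omega
    · intro i hi
      rw [Finset.mem_Icc] at hi
      omega
    · intro j hj
      omega
    · intro i hi
      rw [Finset.mem_Icc] at hi
      have h2 : (((i + d).toNat : ℕ) : ℤ) = i + d := by omega
      have h3 : (((i + d).toNat : ℕ) : ℤ) - d = i := by omega
      rw [h3, ← zpow_natCast z (i + d).toNat, h2, zpow_add₀ hz0, zpow_natCast]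
      field_simp
  have h4 := ContinuousMap.dist_apply_le_dist (f := g)
    (g := c.sum fun i a => a • (fourier i : C(AddCircle (1 : ℝ), ℂ))) t
  have h5 : g t = f z := by
    show f (AddCircle.toCircle t : ℂ) = f z
    rw [ht]
  rw [e1, e2, e3, h5, dist_comm, dist_eq_norm] at h4
  exact lt_of_le_of_lt h4 hd

theorem f4b : S_F4b := by
  intro μ hfin hsph s hs ε hε
  set m : ℝ := μ.real Set.univ with hm
  have hm0 : 0 ≤ m := measureReal_nonneg
  have hmem : MemLp (s.indicator (fun _ => (1 : ℂ))) 2 μ :=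
    memLp_indicator_const 2 hs 1 (Or.inr (measure_ne_top μ s))
  set η : ℝ := Real.sqrt (ε / 8) with hη
  have hη0 : 0 < η := Real.sqrt_pos.2 (by positivity)
  obtain ⟨g, hg, hgm⟩ := hmem.exists_boundedContinuous_eLpNorm_sub_le (by norm_num)
    (ε := ENNReal.ofReal η) (by simpa using hη0)
  have hdm : MemLp (s.indicator (fun _ => (1 : ℂ)) - (g : ℂ → ℂ)) 2 μ := hmem.sub hgm
  have hI : ∫ z, ‖(s.indicator (fun _ => (1 : ℂ)) - (g : ℂ → ℂ)) z‖ ^ 2 ∂μ ≤ ε / 8 := by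
    have h1 := hdm.eLpNorm_eq_integral_rpow_norm (by norm_num) (by norm_num)
    rw [h1, ENNReal.ofReal_le_ofReal_iff hη0.le] at hg
    have h2 : (∫ z, ‖(s.indicator (fun _ => (1 : ℂ)) - (g : ℂ → ℂ)) z‖ ^ (2 : ℝ≥0∞).toReal ∂μ) =
        ∫ z, ‖(s.indicator (fun _ => (1 : ℂ)) - (g : ℂ → ℂ)) z‖ ^ 2 ∂μ := by
      apply integral_congr_ae
      refine Eventually.of_forall fun z => ?_
      show _ ^ (2 : ℝ≥0∞).toReal = _ ^ 2
      rw [ENNReal.toReal_ofNat, Real.rpow_ofNat]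
    rw [h2] at hg
    have h3 : 0 ≤ ∫ z, ‖(s.indicator (fun _ => (1 : ℂ)) - (g : ℂ → ℂ)) z‖ ^ 2 ∂μ :=
      integral_nonneg fun z => by positivity
    have h4 : ((2 : ℝ≥0∞).toReal)⁻¹ = (1 / 2 : ℝ) := by
      rw [ENNReal.toReal_ofNat]; norm_num
    rw [h4, ← Real.sqrt_eq_rpow] at hg
    have h5 := Real.sqrt_le_sqrt_iff (x := ∫ z, ‖(s.indicator (fun _ => (1 : ℂ)) - (g : ℂ → ℂ)) z‖ ^ 2 ∂μ)
      (y := ε / 8) (by positivity)
    exact h5.1 hg
  have hInt : Integrable (fun z => ‖(s.indicator (fun _ => (1 : ℂ)) - (g : ℂ → ℂ)) z‖ ^ 2) μ :=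
    (memLp_two_iff_integrable_sq_norm hdm.aestronglyMeasurable).1 hdm
  set δ : ℝ := Real.sqrt (ε / (8 * (m + 1))) with hδ
  have hδ0 : 0 < δ := Real.sqrt_pos.2 (by positivity)
  obtain ⟨d, a, hda⟩ := trig_dense (g : ℂ → ℂ) g.continuous δ hδ0
  refine ⟨d, a, ?_⟩
  have hae : ∀ᵐ z ∂μ, ‖z‖ = 1 := by
    rw [ae_iff]
    refine measure_mono_null ?_ hsph
    intro z hz
    rw [Set.mem_compl_iff, mem_sphere_zero_iff_norm]
    exact hz
  have hle : ∫ z, ‖(z ^ d)⁻¹ * (∑ j ∈ Finset.range (2 * d + 1), a j * z ^ j)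
      - s.indicator (fun _ => (1 : ℂ)) z‖ ^ 2 ∂μ ≤
      ∫ z, (2 * δ ^ 2 + 2 * ‖(s.indicator (fun _ => (1 : ℂ)) - (g : ℂ → ℂ)) z‖ ^ 2) ∂μ := by
    apply integral_mono_of_nonneg
    · exact Eventually.of_forall fun z => by positivity
    · exact (integrable_const _).add (hInt.const_mul 2)
    · filter_upwards [hae] with z hz
      have h1 := hda z hz
      set u := (z ^ d)⁻¹ * (∑ j ∈ Finset.range (2 * d + 1), a j * z ^ j) with hu
      have h2 : u - s.indicator (fun _ => (1 : ℂ)) z =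
          (u - g z) - (s.indicator (fun _ => (1 : ℂ)) - (g : ℂ → ℂ)) z := by
        rw [Pi.sub_apply]; ring
      rw [h2]
      have h3 := norm_sub_le (u - g z) ((s.indicator (fun _ => (1 : ℂ)) - (g : ℂ → ℂ)) z)
      have h4 := norm_nonneg (u - g z)
      have h5 := norm_nonneg ((s.indicator (fun _ => (1 : ℂ)) - (g : ℂ → ℂ)) z)
      have h6 := norm_nonneg ((u - g z) - (s.indicator (fun _ => (1 : ℂ)) - (g : ℂ → ℂ)) z)
      have h7 : ‖u - g z‖ ^ 2 ≤ δ ^ 2 := pow_le_pow_left₀ h4 h1.le 2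
      have h8 : ‖(u - g z) - (s.indicator (fun _ => (1 : ℂ)) - (g : ℂ → ℂ)) z‖ ^ 2 ≤
          (‖u - g z‖ + ‖(s.indicator (fun _ => (1 : ℂ)) - (g : ℂ → ℂ)) z‖) ^ 2 :=
        pow_le_pow_left₀ h6 h3 2
      nlinarith [sq_nonneg (‖u - g z‖ - ‖(s.indicator (fun _ => (1 : ℂ)) - (g : ℂ → ℂ)) z‖)]
  refine lt_of_le_of_lt hle ?_
  rw [integral_add (integrable_const _) (hInt.const_mul 2), integral_const, integral_const_mul,
    smul_eq_mul, ← hm]
  have h9 : δ ^ 2 = ε / (8 * (m + 1)) := Real.sq_sqrt (by positivity)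
  have h10 : m * (2 * δ ^ 2) ≤ ε / 4 := by
    rw [h9]
    have : m * (2 * (ε / (8 * (m + 1)))) = (ε / 4) * (m / (m + 1)) := by
      field_simp
      ring
    rw [this]
    have h11 : m / (m + 1) ≤ 1 := by
      rw [div_le_one (by positivity)]; linarith
    nlinarith
  linarith

end

end Pool.Agent.W377.PB
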